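import Pool.Agent.H915.Main

set_option autoImplicit false

/-!
# Indestructible guessing models, Martin's axiom and a continuum larger than `ℵ₂`

From a supercompact cardinal `κ` we obtain a forcing notion which forces `IGMP(ω₂, ω₁)`, Martin's
axiom for `ℵ₁` dense sets and `2^ℵ₀ > ℵ₂`.

The forcing language is the one of `Pool.Agent.Helper669.Forcing`: a sentence is the set of the
conditions which force it. The sentences are in `Pool.Agent.H915.Sent`. They are translations of
statements whose equivalence to the usual forms of the principles is the second part of the theorem;
the usual forms are in `Pool.Agent.H915.Lit` (`H(θ)`, elementary submodels and clubs are in
`Pool.Agent.W873.Gmp.Defs`).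

Proof. The side conditions are finite systems of two types of nodes for `κ`: all closure points
`τ < κ` (transitive nodes) and countable sets (small nodes), closed under intersections, such that
small nodes not separated by transitive ones are linearly ordered by membership. Above them we
iterate with finite supports all names for families of finite subsets of `κ` which are small, closed
under subsets and have the countable chain condition; a stage is a maximal set of coordinates for
which the iteration remains strongly proper over the countable nodes, relative to the base. The
resulting poset `P` preserves `ω₁`, has the `κ`-chain condition, makes `κ = ω₂ < 2^ℵ₀` and forces
Martin's axiom.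

Guessing: for almost all `M` (for a normal measure on the small subsets of a set which contains
everything relevant) suppose that some condition `p` forces that `d` is `ω₁`-approximated but not
guessed by `M`. By amalgamation over a countable model and over `M` simultaneously, there are `s` and
`m` such that for every countable `a` it is dense below `m` that some name `y` in `M` is such that
`d ∩ a = y ∩ a` remains possible over `s`. Reflecting to almost all `M`, we get a tree of possible
values of `d ∩ D` with countable levels. A generic chain of small nodes and a coordinate of the
iteration (a poset of pairwise coherent possibilities, which has the countable chain condition
because all possibilities cohere with `d`) give possibilities for all `D` of size less than `κ`; as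
there are only countably many of them for each `D`, they do not split beyond some `D`, and the unique
extensions give a set which guesses `d`, a contradiction.

Indestructibility: the restrictions of the sets in `M` to the countable sets of a generic chain form
a tree of height `ω₁` whose uncountable branches are all guessed. The nodes at which the rank of the
least index of a restriction jumps form a subtree without uncountable chains; by a theorem of
Baumgartner, Malitz and Reinhardt it is specialized by a coordinate of the iteration. A branch which
is not guessed in some extension would meet this subtree in an uncountable chain.
-/

namespace Pool.Agent.Results.MP_109426_lc.IndestructibleGuessingMA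

open Cardinal Pool.Agent.H915
open Pool.Agent.W910.LC (Supercompact)
open Pool.Agent.W684.FM (OmegaOnePreserved)

/-- Let `κ` be a supercompact cardinal. Then there is a preordered set `P` of forcing conditions such
that every condition forces that `ω₁` is preserved, that the indestructible guessing model principle
`IGMP(ω₂, ω₁)` holds, that Martin's axiom for `ℵ₁` dense sets holds and that the continuum is larger
than `ℵ₂`. Over the ground model (that is, for the one-point set of conditions) the three sentences
are equivalent to the usual forms of these statements. -/
theorem result :
    (∀ κ : Cardinal.{0}, Supercompact κ → ∃ (P : Type) (_ : Preorder P), Nonempty P ∧ ∀ p : P,
      p ∈ OmegaOnePreserved P ∧ p ∈ IGMPN P ∧ p ∈ MAN P ∧ p ∈ BigContinuumN P) ∧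
    ((() ∈ IGMPN Unit) ↔ IGMP) ∧ ((() ∈ MAN Unit) ↔ MartinAxiomAleph1) ∧
    ((() ∈ BigContinuumN Unit) ↔ (ℵ_ 2 : Cardinal.{0}) < 𝔠) :=
  ⟨main, plain⟩

end Pool.Agent.Results.MP_109426_lc.IndestructibleGuessingMA
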